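import Pool.Agent.TH744.LR.Main

/-!
# The log-rank conjecture for block compositions

`F(x, y) = g(f_1(x_1, y_1), ..., f_k(x_k, y_k))` with an arbitrary outer Boolean function `g` and
arbitrary (different, unbounded) inner functions `f_i`, none of which is a one-bit-per-player gadget.
-/

set_option autoImplicit false

namespace Pool.Agent.Results.MP_e5d384_lc.BlockComposition

/-- `F` has a deterministic two-party protocol with exactly `c` bits. (Protocols exactly as in the
frozen statement S15531: `t` is the transcript so far, `owner t` says who speaks, and the answer is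
a function of the transcript.) -/
def HasProtocol {X Y : Type} (F : X → Y → Bool) (c : ℕ) : Prop :=
  ∃ (owner : List Bool → Bool) (a : List Bool → X → Bool)
      (b : List Bool → Y → Bool) (out : List Bool → Bool),
      ∀ x y, out (Nat.iterate
        (fun t : List Bool => t ++ [if owner t then a t x else b t y]) c []) = F x y

/-- `log₂` of the real rank of the communication matrix of `F` (`0` if the rank is `0`) -/
noncomputable def logRank {X Y : Type} [Fintype X] [Fintype Y] (F : X → Y → Bool) : ℝ :=
  Real.logb 2 ((Matrix.of (fun (x : X) (y : Y) => if F x y then (1 : ℝ) else 0)).rank : ℝ)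

/-- the communication matrix has at least three distinct rows or at least three distinct columns;
equivalently `f` does not factor through one bit of `x` and one bit of `y` -/
def Nondegenerate {X Y : Type} (f : X → Y → Bool) : Prop :=
  (∃ x₁ x₂ x₃, f x₁ ≠ f x₂ ∧ f x₁ ≠ f x₃ ∧ f x₂ ≠ f x₃) ∨
  (∃ y₁ y₂ y₃, (fun x => f x y₁) ≠ (fun x => f x y₂) ∧ (fun x => f x y₁) ≠ (fun x => f x y₃) ∧
    (fun x => f x y₂) ≠ (fun x => f x y₃))

/-- the block composition `F(x, y) = g(f_1(x_1, y_1), ..., f_k(x_k, y_k))` -/
def compose {k : ℕ} {X Y : Fin k → Type} (g : (Fin k → Bool) → Bool)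
    (f : ∀ i, X i → Y i → Bool) : (∀ i, X i) → (∀ i, Y i) → Bool :=
  fun x y => g (fun i => f i (x i) (y i))

/-- **The log-rank conjecture for block compositions.** Let `F = g(f_1, ..., f_k)` be a block
composition with an arbitrary outer function `g : {0,1}^k → {0,1}` and arbitrary nondegenerate inner
functions `f_i : X_i × Y_i → {0,1}` on arbitrary finite sets. If every inner function has a protocol
with at most `K (log₂ rank f_i + 1)^C` bits, then `F` has a protocol with at most
`K 3^C (log₂ rank F)^(max(C,1)+3)` bits. (`C = 0`: if every inner function has a protocol with at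
most `K` bits, then `F` has a protocol with at most `K (log₂ rank F)^4` bits.) -/
theorem result (K C k : ℕ) (X Y : Fin k → Type) [∀ i, Fintype (X i)] [∀ i, Fintype (Y i)]
    (f : ∀ i, X i → Y i → Bool) (g : (Fin k → Bool) → Bool) (hf : ∀ i, Nondegenerate (f i))
    (hK : ∀ i, ∃ c : ℕ, HasProtocol (f i) c ∧ (c : ℝ) ≤ K * (logRank (f i) + 1) ^ C) :
    ∃ c : ℕ, HasProtocol (compose g f) c ∧
      (c : ℝ) ≤ K * 3 ^ C * (logRank (compose g f)) ^ (max C 1 + 3) := by
  classical
  have hcomp : Pool.Agent.TH744.LR.comp (fun U : Finset (Fin k) => g (fun i => decide (i ∈ U)))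
        (Pool.Agent.TH744.LR.inner f) = compose g f := by
    funext x y
    simp only [Pool.Agent.TH744.LR.comp, compose]
    congr 1
    funext i
    rw [Bool.eq_iff_iff, decide_eq_true_iff, Finset.mem_filter]
    simp [Pool.Agent.TH744.LR.inner]
  rcases Nat.eq_zero_or_pos C with rfl | hC
  · have hq2 : ∀ i, Pool.Agent.TH744.LR.Prot (f i) K := by
      intro i
      obtain ⟨c, hc, hcK⟩ := hK i
      rw [pow_zero, mul_one] at hcK
      exact Pool.Agent.TH744.LR.Prot.mono hc (by exact_mod_cast hcK)
    have h := Pool.Agent.TH744.LR.main_bounded f hf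
      (fun U : Finset (Fin k) => g (fun i => decide (i ∈ U))) K hq2
    rw [hcomp] at h
    obtain ⟨c, hc, hcK⟩ := h
    refine ⟨c, hc, ?_⟩
    rw [pow_zero, mul_one]
    exact hcK
  · have h := Pool.Agent.TH744.LR.main f hf
      (fun U : Finset (Fin k) => g (fun i => decide (i ∈ U))) K C hC hK
    rw [hcomp] at h
    rw [max_eq_left hC]
    exact h

end Pool.Agent.Results.MP_e5d384_lc.BlockComposition
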