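import Pool.Agent.TH697.LogRank.Basic

/-!
# The log-rank conjecture in hereditary classes

A Boolean matrix that omits some `a × b` Boolean matrix as a submatrix has a deterministic
protocol with `O(log rank)` bits, the rank being taken over any field.
-/

set_option autoImplicit false

namespace Pool.Agent.Results.MP_e5d384_lc.HereditaryClasses

open Finset Pool.TH697.LogRank

/-- `F` has a deterministic protocol exchanging `c` bits (protocols as in the problem's frozen
statement: the bit sent after the transcript `t` belongs to the owner of `t`). -/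
def HasProtocol {X Y : Type} (F : X → Y → Bool) (c : ℕ) : Prop :=
  ∃ owner : List Bool → Bool, ∃ α : List Bool → X → Bool, ∃ β : List Bool → Y → Bool,
    ∃ out : List Bool → Bool, ∀ x y,
      out (Nat.iterate (fun t : List Bool => t ++ [if owner t then α t x else β t y]) c [])
        = F x y

/-- The rank over `K` of the `0/1` matrix of `F`. -/
noncomputable def rk (K : Type) [Field K] {X Y : Type} [Fintype Y] (F : X → Y → Bool) : ℕ :=
  (Matrix.of (fun x y => if F x y then (1 : K) else 0)).rank

/-- The matrix of `F` contains `P` as a submatrix (rows and columns in any order). -/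
def ContainsPattern {X Y : Type} (F : X → Y → Bool) {a b : ℕ} (P : Fin a → Fin b → Bool) :
    Prop :=
  ∃ (f : Fin a ↪ X) (g : Fin b ↪ Y), ∀ i j, F (f i) (g j) = P i j

/-- Some `m` columns are shattered: every Boolean vector of length `m` is the restriction of
some row to them. -/
def ShattersColumns {X Y : Type} (F : X → Y → Bool) (m : ℕ) : Prop :=
  ∃ g : Fin m ↪ Y, ∀ v : Fin m → Bool, ∃ x, ∀ j, F x (g j) = v j

theorem flip_protocol {X Y : Type} (F : X → Y → Bool) {c : ℕ}
    (h : HasProtocol (fun y x => F x y) c) : HasProtocol F c := by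
  obtain ⟨owner, α, β, out, hout⟩ := h
  refine ⟨fun t => !owner t, β, α, out, fun x y => ?_⟩
  refine Eq.trans ?_ (hout y x)
  have : (fun t : List Bool => t ++ [if (!owner t) = true then β t x else α t y])
      = fun t => t ++ [if owner t = true then α t y else β t x] := by
    funext t
    cases owner t <;> rfl
  simp only [this]

theorem rk_flip (K : Type) [Field K] {X Y : Type} [Fintype X] [Fintype Y]
    (F : X → Y → Bool) : rk K (fun y x => F x y) = rk K F := by
  unfold rk
  rw [← Matrix.rank_transpose]
  rfl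

theorem of_columns {X Y : Type} [Fintype X] [Fintype Y] (F : X → Y → Bool) (D : ℕ)
    (h : ¬ ShattersColumns F (D + 1)) (K : Type) [Field K] :
    ∃ c, HasProtocol F c ∧ (c : ℝ) ≤ (D : ℝ) * Real.logb 2 (rk K F + 1) + 2 := by
  classical
  obtain ⟨c, owner, α, β, out, h1, h2⟩ := protocol_of_vc K F (D := D)
    (fun g hg => h ⟨g, hg⟩)
  exact ⟨c, ⟨owner, α, β, out, h1⟩, h2⟩

theorem result :
    -- Bounded shattering, of columns by rows or of rows by columns.
    (∀ (X Y : Type) [Fintype X] [Fintype Y] (F : X → Y → Bool) (D : ℕ),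
      (¬ ShattersColumns F (D + 1) ∨ ¬ ShattersColumns (fun y x => F x y) (D + 1)) →
      ∀ (K : Type) [Field K],
        ∃ c, HasProtocol F c ∧ (c : ℝ) ≤ (D : ℝ) * Real.logb 2 (rk K F + 1) + 2) ∧
    -- Omitted submatrices.
    (∀ (X Y : Type) [Fintype X] [Fintype Y] (F : X → Y → Bool) (a b : ℕ)
      (P : Fin a → Fin b → Bool), ¬ ContainsPattern F P →
      ∀ (K : Type) [Field K],
        ∃ c, HasProtocol F c ∧
          (c : ℝ) ≤ (min (b + Nat.clog 2 a) (a + Nat.clog 2 b) : ℕ)
            * Real.logb 2 (rk K F + 1) + 2) := by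
  have part1 : ∀ (X Y : Type) [Fintype X] [Fintype Y] (F : X → Y → Bool) (D : ℕ),
      (¬ ShattersColumns F (D + 1) ∨ ¬ ShattersColumns (fun y x => F x y) (D + 1)) →
      ∀ (K : Type) [Field K],
        ∃ c, HasProtocol F c ∧ (c : ℝ) ≤ (D : ℝ) * Real.logb 2 (rk K F + 1) + 2 := by
    intro X Y _ _ F D h K _
    rcases h with h | h
    · exact of_columns F D h K
    · obtain ⟨c, h1, h2⟩ := of_columns (fun y x => F x y) D h K
      rw [rk_flip K F] at h2
      exact ⟨c, flip_protocol F h1, h2⟩
  refine ⟨part1, ?_⟩
  intro X Y _ _ F a b P hP K _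
  classical
  have hcol : ¬ ShattersColumns F (b + Nat.clog 2 a + 1) := by
    rintro ⟨g, hg⟩
    exact not_shattered_of_omits F (P := P) hP g hg
  have hrow : ¬ ShattersColumns (fun y x => F x y) (a + Nat.clog 2 b + 1) := by
    rintro ⟨g, hg⟩
    refine not_shattered_of_omits (fun y x => F x y) (P := fun j i => P i j) ?_ g hg
    rintro ⟨f, f', hf⟩
    exact hP ⟨f', f, fun i j => hf j i⟩
  rcases le_total (b + Nat.clog 2 a) (a + Nat.clog 2 b) with h | h
  · rw [min_eq_left h]
    exact part1 X Y F _ (Or.inl hcol) K
  · rw [min_eq_right h]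
    exact part1 X Y F _ (Or.inr hrow) K

end Pool.Agent.Results.MP_e5d384_lc.HereditaryClasses
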