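import Pool.Agent.TH410.LR.Gr

set_option autoImplicit false

/-!
# The log-rank conjecture for `F(x, y) = f(x + y)` with `f` an isomorphism-invariant property

Let a product of symmetric groups (one for each sort) act on a finite set `Ω` with `m` orbits, such
that every point of `Ω` is fixed by the pointwise stabilizer of at most `k` elements of the sorts
(for instance `Ω` = pairs, `k`-element sets or `k`-tuples of vertices). For every invariant
`f : F_2^Ω → {0,1}`, in other words for every isomorphism-invariant property of finite structures,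
the function `F(x, y) = f(x + y)` has communication complexity polynomial in the logarithm of its
real rank, with constant and exponent depending on `k` and `m` only.
-/

namespace Pool.Agent.Results.MP_e5d384_lc.IsomorphismInvariant

/-- `F` has a deterministic two-party protocol with at most `B` bits (protocols as in the frozen
statement S15531: `t` is the transcript so far, `owner t` says who speaks, exactly `c` bits are
exchanged and the answer is read off the transcript). -/
def HasProtocol {X Y : Type} (F : X → Y → Bool) (B : ℝ) : Prop :=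
  ∃ (c : ℕ) (owner : List Bool → Bool) (a : List Bool → X → Bool) (b : List Bool → Y → Bool)
    (out : List Bool → Bool),
    (∀ x y, out (Nat.iterate
      (fun t : List Bool => t ++ [if owner t then a t x else b t y]) c []) = F x y) ∧ (c : ℝ) ≤ B

/-- The binary logarithm of the real rank of the communication matrix of `F`. -/
noncomputable def logRank {X Y : Type} [Fintype X] [Fintype Y] (F : X → Y → Bool) : ℝ :=
  Real.logb 2 ((Matrix.of fun (x : X) (y : Y) => if F x y then (1 : ℝ) else 0).rank : ℝ)

/-- (1) The general theorem: `n i` elements of sort `i`, all `g ∈ ∏ i, Sym(n i)` act on `Ω` with at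
most `m` orbits, and every `ω ∈ Ω` is fixed by all `g` which fix the at most `k` elements of
`D ω`.
(2) Graph properties: `F(G, H) = P(G △ H)` for graphs `G`, `H` on `n` vertices.
(3) A graph property `P` for which `F(G, H) = P(G △ H)` has rank at most `2 ^ (√(n / 336) - 1)`
depends only on the parity of the number of edges. -/
theorem result :
    (∀ (I : Type) [Fintype I] [DecidableEq I] (n : I → ℕ) (Ω : Type) [Fintype Ω] [DecidableEq Ω]
      [MulAction (∀ i, Equiv.Perm (Fin (n i))) Ω] (D : Ω → Finset (Σ i, Fin (n i))) (k m : ℕ),
      (∀ ω, (D ω).card ≤ k) →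
      (∀ (ω : Ω) (g : ∀ i, Equiv.Perm (Fin (n i))), (∀ p ∈ D ω, g p.1 p.2 = p.2) → g • ω = ω) →
      Nat.card (MulAction.orbitRel.Quotient (∀ i, Equiv.Perm (Fin (n i))) Ω) ≤ m →
      ∀ f : (Ω → ZMod 2) → Bool,
      (∀ (g : ∀ i, Equiv.Perm (Fin (n i))) (x : Ω → ZMod 2), f (fun ω => x (g • ω)) = f x) →
      HasProtocol (fun x y : Ω → ZMod 2 => f (x + y))
        (m * (24 * (k + 12) * (logRank (fun x y : Ω → ZMod 2 => f (x + y)) + 1) ^ 2) ^ k + 1)) ∧
    ∀ (n : ℕ) (P : SimpleGraph (Fin n) → Bool),
      (∀ G H : SimpleGraph (Fin n), Nonempty (G ≃g H) → P G = P H) →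
      HasProtocol (fun G H : SimpleGraph (Fin n) => P (symmDiff G H))
        (112897 * (logRank (fun G H : SimpleGraph (Fin n) => P (symmDiff G H)) + 1) ^ 4) ∧
      (336 * (logRank (fun G H : SimpleGraph (Fin n) => P (symmDiff G H)) + 1) ^ 2 ≤ n →
        ∃ q : ZMod 2 → Bool, ∀ G : SimpleGraph (Fin n), P G = q (G.edgeSet.ncard : ZMod 2)) :=
  ⟨fun I _ _ n Ω _ _ _ D k m hD hfix hm f hf => TH410.LR.final D hD hfix hm f hf,
    fun n P hP => ⟨TH410.LR.graphs_protocol n P hP, TH410.LR.graphs_parity n P hP⟩⟩

end Pool.Agent.Results.MP_e5d384_lc.IsomorphismInvariant
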