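import Pool.Agent.TH668.LR.Final

set_option autoImplicit false

namespace Pool.Agent.Results.MP_e5d384_lc.LayeredSymmetry

open Pool.Agent.TH668.LR

/-- **Log-rank conjecture for Boolean matrices with layers of symmetries.**
Let a finite group `Γ` act on the finite sets `X` and `Y` and let `F : X × Y → {0,1}` be invariant.
Let `A 0, ..., A (l-1)` and `B 0, ..., B (m-1)` be subgroups of `Γ`, each of them either abelian with
`d` generators or a homomorphic image of a direct product (with any number of factors) of finite
perfect groups `H` such that every nontrivial complex matrix representation of `H` has degree `n`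
with `log₂ |H| ≤ κ (log₂ n)^s`. Suppose that there are `t` rows `bX j` such that every row is of the
form `a₀ a₁ ⋯ a_{l-1} (bX j)` with `a_i ∈ A i`, and `t` columns `bY j` such that every column is of
the form `b₀ b₁ ⋯ b_{m-1} (bY j)` with `b_i ∈ B i` (these product sets need not be groups, and no
relation between the `A i` and the `B i` is assumed). Then, `r` being the real rank of the matrix
of `F`, there is a deterministic two-party protocol for `F` with at most
`((l + m)(log₂ r + 1))^4 (κ (log₂ r)^s + 2 d (log₂ r + 1) + 1) + 2 (log₂ t + 1)` bits. (Protocols as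
in the frozen statement S15531: exactly `c` bits are exchanged, `owner w` says who speaks after the
transcript `w`, and the answer is a function of the transcript.)

For instance, `d = 1` and `κ = 0`: every matrix with a transitive symmetry group on the rows and on
the columns which has a subnormal series of length `l` with cyclic factors, or which is the product
set of `l` cyclic subgroups, has a protocol with `48 l^4 (log₂ r + 1)^5 + 2` bits. -/
theorem result (l m d s t : ℕ) (κ : ℝ) (hκ : 0 ≤ κ) (Γ : Type) [Group Γ] [Finite Γ]
    (X Y : Type) [Fintype X] [Fintype Y] [MulAction Γ X] [MulAction Γ Y] (F : X → Y → Bool)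
    (hF : ∀ (g : Γ) (x : X) (y : Y), F (g • x) (g • y) = F x y)
    (A : Fin l → Subgroup Γ) (B : Fin m → Subgroup Γ)
    (hA : ∀ i, AbelianRank d (A i) ∨ QuasirandomProduct κ s (A i))
    (hB : ∀ i, AbelianRank d (B i) ∨ QuasirandomProduct κ s (B i))
    (bX : Fin t → X) (bY : Fin t → Y)
    (hX : ∀ x, ∃ (j : Fin t) (a : ∀ i, A i), x = (List.ofFn fun i => (a i : Γ)).prod • bX j)
    (hY : ∀ y, ∃ (j : Fin t) (b : ∀ i, B i), y = (List.ofFn fun i => (b i : Γ)).prod • bY j) :
    ∃ (c : ℕ) (owner : List Bool → Bool) (a : List Bool → X → Bool) (b : List Bool → Y → Bool)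
      (out : List Bool → Bool),
      (∀ x y, out (Nat.iterate
        (fun t : List Bool => t ++ [if owner t then a t x else b t y]) c []) = F x y) ∧
      (c : ℝ) ≤ ((l + m) * (Real.logb 2
            ((Matrix.of (fun (x : X) (y : Y) => if F x y then (1 : ℝ) else 0)).rank : ℝ) + 1)) ^ 4 *
          (κ * (Real.logb 2
            ((Matrix.of (fun (x : X) (y : Y) => if F x y then (1 : ℝ) else 0)).rank : ℝ)) ^ s +
          2 * d * (Real.logb 2
            ((Matrix.of (fun (x : X) (y : Y) => if F x y then (1 : ℝ) else 0)).rank : ℝ) + 1) + 1)
        + 2 * (Real.logb 2 t + 1) := by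
  classical
  obtain ⟨c, ⟨owner, a, b, out, h⟩, hc⟩ :=
    final_matrix F hF d s κ hκ l m A B hA hB t bX bY hX hY
  exact ⟨c, owner, a, b, out, h, hc⟩

end Pool.Agent.Results.MP_e5d384_lc.LayeredSymmetry
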